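import Pool.Agent.W810.SYN.Stm

/-!
# Fejer kernels: coefficients and approximate identity
-/

set_option autoImplicit false

namespace Pool.Agent.W506.SYN.FEJ

open MeasureTheory AddCircle Filter Topology Pool.Agent.Results.MP_535799_an.NonSidon
open Pool.Agent.W810.SYN

lemma card_pairs (N : ℕ) (n : ℤ) :
    (((Finset.Icc (0 : ℤ) N ×ˢ Finset.Icc (0 : ℤ) N).filter (fun p => n = p.1 - p.2)).card : ℤ)
      = max 0 ((N : ℤ) + 1 - |n|) := by
  have h1 : ((Finset.Icc (0 : ℤ) N ×ˢ Finset.Icc (0 : ℤ) N).filter (fun p => n = p.1 - p.2))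
      = (Finset.Icc (max 0 (-n)) (min (N : ℤ) (N - n))).image (fun k => (k + n, k)) := by
    ext ⟨a, b⟩
    simp only [Finset.mem_filter, Finset.mem_product, Finset.mem_Icc, Finset.mem_image,
      Prod.mk.injEq]
    constructor
    · rintro ⟨⟨⟨h1, h2⟩, h3, h4⟩, h5⟩
      exact ⟨b, ⟨by omega, by omega⟩, by omega, rfl⟩
    · rintro ⟨k, ⟨h1, h2⟩, h3, h4⟩
      subst h4
      refine ⟨⟨⟨?_, ?_⟩, ⟨?_, ?_⟩⟩, ?_⟩ <;> omega
  rw [h1, Finset.card_image_of_injective _ (fun a b h => (Prod.mk.inj h).2), Int.card_Icc]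
  rw [Int.toNat_eq_max]
  rcases abs_cases n with ⟨h, h'⟩ | ⟨h, h'⟩ <;> rw [h] <;> omega

lemma coeff_eq (N : ℕ) (n : ℤ) : coeff (toL (fejer N)) n = lam N n := by
  rw [coeff_fejer]
  unfold lam
  rw [← card_pairs N n, Int.cast_natCast, div_eq_inv_mul]

lemma conv_add (f g h : L1) : conv (f + g) h = conv f h + conv g h := by
  rw [← sub_eq_zero]
  apply eq_zero_of_coeff
  intro n
  rw [coeff_sub, coeff_conv, coeff_add, coeff_add, coeff_conv, coeff_conv]
  ring

lemma conv_smul (c : ℂ) (f h : L1) : conv (c • f) h = c • conv f h := by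
  rw [← sub_eq_zero]
  apply eq_zero_of_coeff
  intro n
  rw [coeff_sub, coeff_conv, coeff_smul, coeff_smul, coeff_conv]
  ring

lemma conv_zero (h : L1) : conv 0 h = 0 := by
  apply eq_zero_of_coeff
  intro n
  rw [coeff_conv, coeff_zero, zero_mul]

lemma conv_four (n : ℤ) (N : ℕ) :
    conv (fourierLp 1 n) (toL (fejer N)) = lam N n • (fourierLp 1 n : L1) := by
  rw [← sub_eq_zero]
  apply eq_zero_of_coeff
  intro m
  rw [coeff_sub, coeff_conv, coeff_smul, coeff_fourierLp, coeff_eq]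
  split_ifs with h
  · rw [h]; ring
  · ring

lemma lam_tendsto (n : ℤ) : Tendsto (fun N : ℕ => lam N n) atTop (𝓝 1) := by
  have h1 : Tendsto (fun N : ℕ => (1 : ℂ) - ((|n| : ℤ) : ℂ) * (1 / ((N : ℂ) + 1))) atTop (𝓝 1) := by
    have h2 : Tendsto (fun N : ℕ => 1 / ((N : ℂ) + 1)) atTop (𝓝 0) :=
      tendsto_one_div_add_atTop_nhds_zero_nat
    have h3 := (h2.const_mul ((|n| : ℤ) : ℂ)).const_sub (1 : ℂ)
    simpa using h3
  refine h1.congr' ?_
  filter_upwards [eventually_ge_atTop n.natAbs] with N hN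
  unfold lam
  have h4 : max 0 ((N : ℤ) + 1 - |n|) = (N : ℤ) + 1 - |n| := by
    rw [Int.abs_eq_natAbs]
    omega
  rw [h4]
  have h5 : ((N : ℂ) + 1) ≠ 0 := by exact_mod_cast Nat.succ_ne_zero N
  push_cast
  field_simp

lemma tendsto_span (f : L1)
    (hf : f ∈ Submodule.span ℂ (Set.range (@fourierLp (2 * Real.pi) _ 1 _))) :
    Tendsto (fun N : ℕ => f - conv f (toL (fejer N))) atTop (𝓝 0) := by
  induction hf using Submodule.span_induction with
  | mem x hx =>
    obtain ⟨n, rfl⟩ := hx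
    have h1 : (fun N : ℕ => (fourierLp 1 n : L1) - conv (fourierLp 1 n) (toL (fejer N)))
        = fun N : ℕ => (fourierLp 1 n : L1) - lam N n • (fourierLp 1 n : L1) := by
      funext N
      rw [conv_four]
    rw [h1]
    have h2 := ((lam_tendsto n).smul_const (fourierLp 1 n : L1)).const_sub (fourierLp 1 n : L1)
    simpa using h2
  | zero =>
    simp only [conv_zero, sub_zero]
    exact tendsto_const_nhds
  | add x y _ _ hx hy =>
    have h := hx.add hy
    rw [add_zero] at h
    refine h.congr (fun N => ?_)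
    rw [conv_add]
    abel
  | smul a x _ hx =>
    have h := hx.const_smul a
    rw [smul_zero] at h
    refine h.congr (fun N => ?_)
    rw [conv_smul, smul_sub]

theorem main : S_FEJ := by
  refine ⟨coeff_eq, ?_⟩
  intro f
  have hd : f ∈ (Submodule.span ℂ (Set.range (@fourierLp (2 * Real.pi) _ 1 _))).topologicalClosure := by
    rw [span_fourierLp_closure_eq_top ENNReal.one_ne_top]
    trivial
  have hd' : f ∈ closure
      (Submodule.span ℂ (Set.range (@fourierLp (2 * Real.pi) _ 1 _)) : Set L1) := hd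
  rw [Metric.tendsto_atTop]
  intro ε hε
  obtain ⟨P, hP, hfP⟩ := Metric.mem_closure_iff.mp hd' (ε / 3) (by linarith)
  have h1 := tendsto_span P hP
  rw [Metric.tendsto_atTop] at h1
  obtain ⟨N₀, hN₀⟩ := h1 (ε / 3) (by linarith)
  refine ⟨N₀, fun N hN => ?_⟩
  have h2 := hN₀ N hN
  rw [dist_zero_right] at h2
  rw [dist_eq_norm] at hfP
  rw [dist_zero_right, norm_norm]
  have h3 : conv f (toL (fejer N)) = conv (f - P) (toL (fejer N)) + conv P (toL (fejer N)) := by
    rw [← conv_add, sub_add_cancel]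
  have h4 : f - conv f (toL (fejer N)) =
      (f - P) - conv (f - P) (toL (fejer N)) + (P - conv P (toL (fejer N))) := by
    rw [h3]
    abel
  have h5 : ‖conv (f - P) (toL (fejer N))‖ ≤ ‖f - P‖ := by
    have := norm_conv_le (f - P) (toL (fejer N))
    rwa [norm_fejer, mul_one] at this
  have h6 := norm_add_le ((f - P) - conv (f - P) (toL (fejer N))) (P - conv P (toL (fejer N)))
  have h7 := norm_sub_le (f - P) (conv (f - P) (toL (fejer N)))
  rw [h4]
  linarith

end Pool.Agent.W506.SYN.FEJ
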